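import Pool.Agent.Y981.CI.Fin

set_option autoImplicit false

/-!
# Size of the pieces of the infinite half-plane self-avoiding walk on the hexagonal grid before its
cut times
-/

namespace Pool.Agent.Results.MP_df1d0b_pr.CutTimes

open Filter Topology MeasureTheory

/-- `e^{iπ/3}` -/
noncomputable def Om : ℂ := ⟨1 / 2, Real.sqrt 3 / 2⟩

/-- the hexagonal grid with edge length one and a vertex at `0` (the triangular grid without the
centres of the hexagons) -/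
def HexG : Set ℂ := {z | ∃ a b : ℤ, (a - b) % 3 ≠ 2 ∧ z = a + b * Om}

/-- the grid `Λ` multiplied by `u` -/
def rot (u : ℂ) (Λ : Set ℂ) : Set ℂ := {z | ∃ w ∈ Λ, z = u * w}

/-- self-avoiding walks with `n` steps in the closed upper half-plane, starting at `0`, with steps of
length `r` between points of `Λ`; a walk is continued by its last point -/
def PW (Λ : Set ℂ) (r : ℝ) (n : ℕ) : Set (ℕ → ℂ) :=
  {γ | γ 0 = 0 ∧ (∀ i, γ i ∈ Λ ∧ 0 ≤ (γ i).im) ∧ (∀ i < n, ‖γ (i + 1) - γ i‖ = r) ∧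
    (∀ i ≤ n, ∀ j ≤ n, γ i = γ j → i = j) ∧ ∀ i, n ≤ i → γ i = γ n}

/-- `k` is a cut time of `γ`: there is a horizontal line such that `γ` is below or on the line up to
the time `k`, and strictly above the line afterwards -/
def CutTime (k : ℕ) (γ : ℕ → ℂ) : Prop :=
  ∃ y : ℝ, (∀ i ≤ k, (γ i).im ≤ y) ∧ ∀ i, k < i → y < (γ i).im

/-- There are constants `c > 0` and `C ≥ 1` such that for the hexagonal grid of edge length `‖u‖`
with a vertex at `0` and an edge at `0` perpendicular to the real line, the infinite half-plane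
self-avoiding walk (the weak limit `μ` of the uniform measures on `n`-step half-plane walks)
satisfies:
(1) for `k ≥ 16` and `T ≥ (log (k + 1))^2`, the probability that `k` is a cut time and that there are
`i < j ≤ k` with `|γ i - γ j| > C ‖u‖ (j - i)^(1 - c / log T)` is at most `2 e^(-T)`;
(2) almost surely, for every sufficiently large cut time `k`, all pieces of the walk before the time
`k` satisfy `|γ i - γ j| ≤ C ‖u‖ (j - i)^(1 - c / log log k)`. -/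
theorem result : ∃ c C : ℝ, 0 < c ∧ 1 ≤ C ∧ ∀ u : ℂ, u ≠ 0 →
    (∃ z ∈ rot u HexG, ‖z‖ = ‖u‖ ∧ z.re = 0) →
    ∃ μ : Measure (ℕ → ℂ), IsProbabilityMeasure μ ∧
      (∀ᵐ γ ∂μ, γ 0 = 0 ∧ (∀ i, γ i ∈ rot u HexG ∧ 0 ≤ (γ i).im) ∧
        (∀ i, ‖γ (i + 1) - γ i‖ = ‖u‖) ∧ Function.Injective γ) ∧
      (∀ F : BoundedContinuousFunction (ℕ → ℂ) ℝ,
        Tendsto (fun n => (∑ᶠ γ ∈ PW (rot u HexG) ‖u‖ n, F γ) /
          ((PW (rot u HexG) ‖u‖ n).ncard : ℝ)) atTop (𝓝 (∫ γ, F γ ∂μ))) ∧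
      (∀ (k : ℕ) (T : ℝ), 16 ≤ k → Real.log (k + 1) ^ 2 ≤ T →
        μ {γ | CutTime k γ ∧ ∃ i j : ℕ, i < j ∧ j ≤ k ∧
          C * ‖u‖ * ((j - i : ℕ) : ℝ) ^ (1 - c / Real.log T) < ‖γ i - γ j‖} ≤
            ENNReal.ofReal (2 * Real.exp (-T))) ∧
      ∀ᵐ γ ∂μ, ∀ᶠ k : ℕ in atTop, CutTime k γ → ∀ i j : ℕ, i < j → j ≤ k →
        ‖γ i - γ j‖ ≤ C * ‖u‖ * ((j - i : ℕ) : ℝ) ^ (1 - c / Real.log (Real.log k)) := by
  obtain ⟨c, C, hc0, -, hC, hseg⟩ := Pool.Agent.Y981.QB.s_seg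
  refine ⟨c / 4, max C 1, by positivity, le_max_right _ _, ?_⟩
  intro u hu hv
  obtain ⟨c0, hc, E, hE⟩ := Pool.Agent.W818.TD.emb_vert u hu hv
  obtain ⟨μ, h1, h2, h3, h4⟩ :=
    Pool.Agent.H976R3.HPL.concl_of_emb E Pool.Agent.H976R3.HPL.facts_hexA
  have := h1
  have hr : 0 < ‖u‖ := norm_pos_iff.2 hu
  refine ⟨μ, h1, h2, h4, ?_, ?_⟩
  · intro k T hk hT
    exact Pool.Agent.Y981.CI.prob (c' := c / 4) (by linarith) hseg hc hr E hE μ h2 h3 hk hT
  · exact Pool.Agent.Y981.CI.asure hc0 hseg hc hr E hE μ h2 h3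

end Pool.Agent.Results.MP_df1d0b_pr.CutTimes
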