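import Pool.Agent.Y981.L2.HalfE
import Pool.Agent.Y981.L2X.Dir

/-!
The half-plane self-avoiding walk on `ℤ²`.  The law of the end point of the uniform `n`-step walk in
the closed upper half plane is, at every point of the closed half plane, comparable with the law of
the end point of the full-plane walk, up to a factor `exp (± K (log n)^2)`.  So it satisfies,
uniformly up to the boundary, the same local large deviation estimate, with the Legendre transform
of the masses of the full-plane two-point function, and its size is governed by the correlation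
length.
-/

set_option autoImplicit false

namespace Pool.Agent.Results.MP_df1d0b_pr.EndPointFullPlaneLogTwo

open Filter Topology

/-- `ω` is an `n`-step self-avoiding walk on `ℤ²` started at the origin. -/
def IsSAW (n : ℕ) (ω : Fin (n + 1) → ℤ × ℤ) : Prop :=
  ω 0 = (0, 0) ∧
  (∀ i : Fin n, |(ω i.succ).1 - (ω i.castSucc).1| + |(ω i.succ).2 - (ω i.castSucc).2| = 1) ∧
  Function.Injective ω

/-- the walk stays in the closed upper half plane -/
def InHalf (n : ℕ) (ω : Fin (n + 1) → ℤ × ℤ) : Prop := ∀ i, 0 ≤ (ω i).2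

/-- `c_n`: the number of `n`-step self-avoiding walks from the origin -/
noncomputable def c (n : ℕ) : ℕ := Nat.card {ω : Fin (n + 1) → ℤ × ℤ // IsSAW n ω}

/-- `c_n(x)`: the number of `n`-step self-avoiding walks from the origin to `x` -/
noncomputable def cx (n : ℕ) (x : ℤ × ℤ) : ℕ :=
  Nat.card {ω : Fin (n + 1) → ℤ × ℤ // IsSAW n ω ∧ ω (Fin.last n) = x}

/-- the number of `n`-step self-avoiding walks from the origin in the closed upper half plane -/
noncomputable def h (n : ℕ) : ℕ := Nat.card {ω : Fin (n + 1) → ℤ × ℤ // IsSAW n ω ∧ InHalf n ω}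

/-- the number of those that end at `x` -/
noncomputable def hx (n : ℕ) (x : ℤ × ℤ) : ℕ :=
  Nat.card {ω : Fin (n + 1) → ℤ × ℤ // IsSAW n ω ∧ ω (Fin.last n) = x ∧ InHalf n ω}

/-- `P_n(ω(n) = x)` for the uniform `n`-step self-avoiding walk in the plane -/
noncomputable def P (n : ℕ) (x : ℤ × ℤ) : ℝ := (cx n x : ℝ) / (c n : ℝ)

/-- `P⁺_n(ω(n) = x)` for the uniform `n`-step self-avoiding walk in the half plane -/
noncomputable def PH (n : ℕ) (x : ℤ × ℤ) : ℝ := (hx n x : ℝ) / (h n : ℝ)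

/-- the two-point function `G_z(x) = ∑_n c_n(x) z^n` of the full-plane walk -/
noncomputable def G (z : ℝ) (x : ℤ × ℤ) : ℝ := ∑' n : ℕ, (cx n x : ℝ) * z ^ n

/-- Euclidean norm of a lattice point -/
noncomputable def len (x : ℤ × ℤ) : ℝ := Real.sqrt ((x.1 : ℝ) ^ 2 + (x.2 : ℝ) ^ 2)

/-- `P⁺_n[|ω(n)| ≥ r]` for the uniform `n`-step self-avoiding walk in the half plane -/
noncomputable def farH (n : ℕ) (r : ℝ) : ℝ :=
  (Nat.card {ω : Fin (n + 1) → ℤ × ℤ // IsSAW n ω ∧ InHalf n ω ∧ r ≤ len (ω (Fin.last n))} : ℝ) /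
    (h n : ℝ)

/-- `P_n[|ω(n)| ≥ r]` for the uniform `n`-step self-avoiding walk in the plane -/
noncomputable def far (n : ℕ) (r : ℝ) : ℝ :=
  (Nat.card {ω : Fin (n + 1) → ℤ × ℤ // IsSAW n ω ∧ r ≤ len (ω (Fin.last n))} : ℝ) / (c n : ℝ)

theorem c_eq (n : ℕ) : c n = TH795.EP.c n := TH795.EP2.card_walks n

theorem cx_eq (n : ℕ) (x : ℤ × ℤ) : cx n x = TH795.EP.a n x.1 x.2 := TH795.EP2.card_walks_to n x

theorem hi_iff {n : ℕ} {w : List H981.St} (hw : w.length = n) :
    Y981.L2.Hi w ↔ InHalf n (TH795.EP2.ew n w) := by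
  constructor
  · intro h i
    exact h i
  · intro h k
    rcases Nat.lt_or_ge k (n + 1) with h1 | h1
    · exact h ⟨k, h1⟩
    · rw [Y981.L2.path_ge (by omega), hw]
      exact h ⟨n, by omega⟩

theorem h_eq (n : ℕ) : h n = Y981.L2.hp n := by
  rw [← Y981.L2.card_hi_all]
  apply TH795.EP2.ncard_eq n (fun w => Y981.L2.Hi w) (fun ω => InHalf n ω)
  intro w hw
  exact hi_iff hw

theorem hx_eq (n : ℕ) (x : ℤ × ℤ) : hx n x = Y981.L2.la n x.1 (-x.2) := by
  rw [← Y981.L2.card_hi]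
  apply TH795.EP2.ncard_eq n (fun w => (H981.dx w = x.1 ∧ H981.dy w = x.2) ∧ Y981.L2.Hi w)
    (fun ω => ω (Fin.last n) = x ∧ InHalf n ω)
  intro w hw
  rw [TH795.EP2.ew_last n hw, hi_iff hw]
  constructor
  · rintro ⟨⟨h1, h2⟩, h3⟩; exact ⟨Prod.ext h1 h2, h3⟩
  · rintro ⟨h1, h2⟩
    exact ⟨⟨congrArg Prod.fst h1, congrArg Prod.snd h1⟩, h2⟩

theorem farH_eq (n : ℕ) (r : ℝ) : farH n r = Y981.L2.farp n r := by
  unfold farH Y981.L2.farp
  rw [h_eq]
  congr 2
  have e1 := TH795.EP2.ncard_eq n (fun w => Y981.L2.Hi w ∧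
    r ≤ Real.sqrt ((H981.dx w : ℝ) ^ 2 + (H981.dy w : ℝ) ^ 2))
    (fun ω => InHalf n ω ∧ r ≤ len (ω (Fin.last n))) (by
      intro w hw
      rw [TH795.EP2.ew_last n hw, hi_iff hw]
      rfl)
  refine Eq.trans e1 ?_
  apply le_antisymm
  · apply TH795.EP.card_le_of_decode H981.ng
    intro w hw
    rw [TH795.EP.mem_fs] at hw
    obtain ⟨⟨h1, h2, h3⟩, h4⟩ := hw
    refine ⟨H981.ng w, TH795.EP.mem_fs.2 ⟨⟨h1.ng, fun k => ?_, ?_⟩, ?_⟩, H981.ng_ng w⟩
    · rw [Y981.L2.path_ng_snd]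
      have := h2 k
      omega
    · rw [H981.dx_ng, H981.dy_ng]
      push_cast
      rw [neg_sq]
      exact h3
    · rw [H981.length_ng, h4]
  · apply TH795.EP.card_le_of_decode H981.ng
    intro w hw
    rw [TH795.EP.mem_fs] at hw
    obtain ⟨⟨h1, h2, h3⟩, h4⟩ := hw
    refine ⟨H981.ng w, TH795.EP.mem_fs.2 ⟨⟨h1.ng, fun k => ?_, ?_⟩, ?_⟩, H981.ng_ng w⟩
    · rw [Y981.L2.path_ng_snd]
      have := h2 k
      omega
    · rw [H981.dx_ng, H981.dy_ng]
      push_cast
      rw [neg_sq]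
      exact h3
    · rw [H981.length_ng, h4]

theorem G_eq (z : ℝ) (x y : ℤ) : G z (x, y) = Y981.L2.Gz z x y := by
  unfold G Y981.L2.Gz
  apply tsum_congr
  intro n
  rw [cx_eq]

theorem far_eq (n : ℕ) (r : ℝ) : far n r = Y981.L2.far n r := by
  unfold far Y981.L2.far
  rw [c_eq]
  congr 2
  apply TH795.EP2.ncard_eq n (fun w => r ≤ Real.sqrt ((H981.dx w : ℝ) ^ 2 + (H981.dy w : ℝ) ^ 2))
    (fun ω => r ≤ len (ω (Fin.last n)))
  intro w hw
  rw [TH795.EP2.ew_last n hw]
  rfl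

/-- **Theorem.** Let `μ = lim c_n^(1/n)`.  For `0 < z < 1/μ` and every lattice point `x ≠ 0` the
mass `m_z(x) = lim_k - (1/k) log G_z(k x)` of the full-plane two-point function exists and is
positive and finite.  There are a convex function `I` on the square `|v₁| + |v₂| ≤ 1` and a constant
`K` such that for every `n ≥ 2`:
(1) for every lattice point `x ≠ 0` of the closed upper half plane which an `n`-step walk can reach
(`x₁ + x₂ ≡ n (mod 2)` and `|x₁| + |x₂| ≤ n`), up to errors `K (log n)^2`,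
`log P⁺_n(ω(n) = x) = log P_n(ω(n) = x) = - n I(x / n) = - sup_{0 < z < 1/μ} (m_z(x) + n log (μ z))`;
(2) `P⁺_n[|ω(n)| ≥ r]` and `P_n[|ω(n)| ≥ r]` differ at most by a factor `exp (K (log n)^2)`, for
every real `r`;
(3) with the correlation length `ξ_n = 1 / m_z((1, 0))`, `z = e^(-1/n) / μ`:
`P⁺_n[|ω(n)| ≥ r] ≤ exp (K (log n)^2 - r / (4 ξ_n))` for all `r ≥ 0`, and
`P⁺_n[|ω(n)| ≥ r] ≥ exp (- K (log n)^2)` for all `r ≤ ξ_n / 4`. -/
theorem result : ∃ (μ : ℝ) (m : ℝ → ℤ × ℤ → ℝ), 0 < μ ∧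
    Tendsto (fun n : ℕ => (c n : ℝ) ^ (1 / (n : ℝ))) atTop (𝓝 μ) ∧
    (∀ z : ℝ, 0 < z → z < 1 / μ → ∀ x : ℤ × ℤ, x ≠ 0 → 0 < m z x ∧
      Tendsto (fun k : ℕ => - Real.log (G z (k * x.1, k * x.2)) / k) atTop (𝓝 (m z x))) ∧
    ∃ (K : ℝ) (I : ℝ × ℝ → ℝ), ConvexOn ℝ {v : ℝ × ℝ | |v.1| + |v.2| ≤ 1} I ∧
      ∀ n : ℕ, 2 ≤ n →
      (∀ x : ℤ × ℤ, x ≠ 0 → 0 ≤ x.2 → (x.1 + x.2 - n) % 2 = 0 → |x.1| + |x.2| ≤ n →
        |Real.log (PH n x) - Real.log (P n x)| ≤ K * Real.log n ^ 2 ∧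
        |Real.log (PH n x) + n * I ((x.1 : ℝ) / n, (x.2 : ℝ) / n)| ≤ K * Real.log n ^ 2 ∧
        (∀ z : ℝ, 0 < z → z < 1 / μ →
          Real.log (PH n x) ≤ -(m z x + n * Real.log (μ * z)) + K * Real.log n ^ 2) ∧
        (∃ z : ℝ, 0 < z ∧ z < 1 / μ ∧
          -(m z x + n * Real.log (μ * z)) - K * Real.log n ^ 2 ≤ Real.log (PH n x))) ∧
      (∀ r : ℝ, farH n r ≤ Real.exp (K * Real.log n ^ 2) * far n r ∧
        far n r ≤ Real.exp (K * Real.log n ^ 2) * farH n r) ∧
      ∀ ξ : ℝ, ξ = 1 / m (Real.exp (-1 / n) / μ) (1, 0) →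
        (∀ r : ℝ, 0 ≤ r → farH n r ≤ Real.exp (K * Real.log n ^ 2 - r / (4 * ξ))) ∧
        (∀ r : ℝ, r ≤ ξ / 4 → Real.exp (-(K * Real.log n ^ 2)) ≤ farH n r) := by
  have hmu := H981.mu_pos
  refine ⟨H981.mu, fun z x => Y981.L2X.M (-Real.log (z * H981.mu)) ((x.1 : ℝ), (x.2 : ℝ)), hmu,
    ?_, ?_, ?_⟩
  · have h := H981.tendsto_root
    refine h.congr ?_
    intro n
    rw [c_eq, TH795.EP.c_eq]
  · intro z hz hz1 x hx
    have he : 0 < -Real.log (z * H981.mu) := by
      have h1 : z * H981.mu < 1 := by rwa [lt_div_iff₀ hmu] at hz1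
      have h2 := Real.log_neg (mul_pos hz hmu) h1
      linarith
    refine ⟨Y981.L2X.M_pos he hx, ?_⟩
    refine (Y981.L2X.G_dir hz hz1 hx).congr ?_
    intro k
    rw [G_eq]
  · obtain ⟨A1, hA1, a1⟩ := Y981.L2.half_law
    obtain ⟨A2, hA2, a2⟩ := Y981.L2.ldp_words
    obtain ⟨A3, hA3, a3⟩ := Y981.L2.farp_le
    obtain ⟨A4, hA4, a4⟩ := Y981.L2.le_farp
    obtain ⟨K1, hK1, h1⟩ := Y981.L2X.legendre2
    obtain ⟨K2, hK2, h2⟩ := Y981.L2X.far_upper
    obtain ⟨K3, hK3, h3⟩ := Y981.L2X.far_lower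
    refine ⟨2 * A1 + A2 + A3 + A4 + K1 + K2 + K3, Y981.L2.Rate, Y981.L2.convex_rate,
      fun n hn => ?_⟩
    have hn0 : (0 : ℝ) < n := by exact_mod_cast (by omega : 0 < n)
    have hL4 : 0 ≤ Real.log (n : ℝ) ^ 2 := by positivity
    have u1 : 0 ≤ A1 * Real.log (n : ℝ) ^ 2 := by positivity
    have u2 : 0 ≤ A2 * Real.log (n : ℝ) ^ 2 := by positivity
    have u3 : 0 ≤ A3 * Real.log (n : ℝ) ^ 2 := by positivity
    have u4 : 0 ≤ A4 * Real.log (n : ℝ) ^ 2 := by positivity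
    have p1 : 0 ≤ K1 * Real.log (n : ℝ) ^ 2 := by positivity
    have p2 : 0 ≤ K2 * Real.log (n : ℝ) ^ 2 := by positivity
    have p3 : 0 ≤ K3 * Real.log (n : ℝ) ^ 2 := by positivity
    have hm : 0 < Y981.L2.mass (1 / (n : ℝ)) := Y981.L2.mass_pos (by positivity)
    have hq : ∀ A : ℝ, TH795.EP2.q n A = Real.exp (A * Real.log n ^ 2) := fun A => rfl
    have v1 : ∀ r : ℝ, farH n r ≤ Real.exp (A3 * Real.log n ^ 2) * far n r := by
      intro r
      rw [farH_eq, far_eq, ← hq]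
      exact a3 n hn r
    have v2 : ∀ r : ℝ, far n r ≤ Real.exp (A4 * Real.log n ^ 2) * farH n r := by
      intro r
      rw [farH_eq, far_eq, ← hq]
      exact a4 n hn r
    refine ⟨?_, ?_, ?_⟩
    · intro x hx hx2 hpar hle
      have hne : (x.1, x.2) ≠ ((0, 0) : ℤ × ℤ) := hx
      have hne' : (x.1, -x.2) ≠ ((0, 0) : ℤ × ℤ) := by
        intro h
        obtain ⟨h1, h2⟩ := Prod.mk.inj h
        exact hx (Prod.ext h1 (by simpa using h2))
      obtain ⟨-, -, g3⟩ := a1 n hn x.1 (-x.2) (by omega) hne' (by omega) (by rwa [abs_neg])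
      have g2 := a2 n hn x.1 x.2 hne hpar hle
      rw [TH795.EP.a_ng] at g3
      have e1 : PH n x = (Y981.L2.la n x.1 (-x.2) : ℝ) / Y981.L2.hp n := by
        unfold PH
        rw [h_eq, hx_eq]
      have e2 : P n x = (TH795.EP.a n x.1 x.2 : ℝ) / TH795.EP.c n := by
        unfold P
        rw [c_eq, cx_eq]
      obtain ⟨h5, e, he, h6⟩ := h1 n hn x.1 x.2 (fun h0 => hx h0) hpar hle
      rw [← e1, ← e2] at g3
      rw [← e2] at g2 h5 h6
      have h34 := (Y981.L2.pow_le_four hn).1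
      have m3 := mul_le_mul_of_nonneg_left h34 hA1
      obtain ⟨g4, g5⟩ := abs_le.1 g3
      obtain ⟨g6, g7⟩ := abs_le.1 g2
      refine ⟨?_, ?_, ?_, ?_⟩
      · rw [abs_le]
        constructor <;> linarith
      · rw [abs_le]
        constructor <;> linarith
      · intro z hz hz1
        have he : 0 < -Real.log (z * H981.mu) := by
          have h1 : z * H981.mu < 1 := by rwa [lt_div_iff₀ hmu] at hz1
          have h2 := Real.log_neg (mul_pos hz hmu) h1
          linarith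
        have h7 := h5 _ he
        simp only
        rw [mul_comm H981.mu z]
        linarith
      · have hz : 0 < Real.exp (-e) / H981.mu := by positivity
        refine ⟨Real.exp (-e) / H981.mu, hz, ?_, ?_⟩
        · apply div_lt_div_of_pos_right _ hmu
          rw [Real.exp_lt_one_iff]
          linarith
        · have e3 : Real.log (H981.mu * (Real.exp (-e) / H981.mu)) = -e := by
            rw [mul_div_cancel₀ _ hmu.ne', Real.log_exp]
          simp only
          rw [Y981.L2.e_z, e3]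
          linarith
    · intro r
      have f1 : 0 ≤ far n r := by unfold far; positivity
      have f2 : 0 ≤ farH n r := by unfold farH; positivity
      constructor
      · refine (v1 r).trans (mul_le_mul_of_nonneg_right (Real.exp_le_exp.2 ?_) f1)
        linarith
      · refine (v2 r).trans (mul_le_mul_of_nonneg_right (Real.exp_le_exp.2 ?_) f2)
        linarith
    · intro ξ hξ
      have hxi : ξ = 1 / Y981.L2.mass (1 / (n : ℝ)) := by
        rw [hξ]
        have e := Y981.L2.e_z (1 / (n : ℝ))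
        have e2 : -(1 / (n : ℝ)) = -1 / n := by ring
        rw [e2] at e
        simp only
        rw [e]
        have e3 : (((1 : ℤ) : ℝ), ((0 : ℤ) : ℝ)) = ((1, 0) : ℝ × ℝ) := by simp
        rw [e3, Y981.L2X.M_axis (by positivity)]
      rw [hxi]
      refine ⟨?_, ?_⟩
      · intro r hr
        refine (v1 r).trans ?_
        rw [far_eq]
        refine (mul_le_mul_of_nonneg_left (h2 n hn r hr) (Real.exp_pos _).le).trans ?_
        rw [← Real.exp_add]
        apply Real.exp_le_exp.2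
        have e1 : r / (4 * (1 / Y981.L2.mass (1 / (n : ℝ)))) =
            r * Y981.L2.mass (1 / (n : ℝ)) / 4 := by
          field_simp
        rw [e1]
        linarith
      · intro r hr
        have e1 : r * Y981.L2.mass (1 / (n : ℝ)) ≤ 1 / 4 := by
          have := mul_le_mul_of_nonneg_right hr hm.le
          have e2 : 1 / Y981.L2.mass (1 / (n : ℝ)) / 4 * Y981.L2.mass (1 / (n : ℝ)) =
              1 / 4 := by
            field_simp
          linarith
        have g1 := h3 n hn r e1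
        rw [← far_eq] at g1
        have g2 := g1.trans (v2 r)
        have g3 := mul_le_mul_of_nonneg_left g2 (Real.exp_pos (-(A4 * Real.log (n : ℝ) ^ 2))).le
        rw [← mul_assoc, ← Real.exp_add, ← Real.exp_add, neg_add_cancel, Real.exp_zero,
          one_mul] at g3
        refine le_trans (Real.exp_le_exp.2 ?_) g3
        linarith

end Pool.Agent.Results.MP_df1d0b_pr.EndPointFullPlaneLogTwo
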