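import Pool.Agent.Y981.GP.FinH

set_option autoImplicit false

/-!
# Gaps between the cut lines of the infinite half-plane self-avoiding walk on the hexagonal grid
-/

namespace Pool.Agent.Results.MP_df1d0b_pr.Gaps

open Filter Topology MeasureTheory

/-- `e^{iπ/3}` -/
noncomputable def Om : ℂ := ⟨1 / 2, Real.sqrt 3 / 2⟩

/-- the hexagonal grid with edge length one and a vertex at `0` (the triangular grid without the
centres of the hexagons) -/
def HexG : Set ℂ := {z | ∃ a b : ℤ, (a - b) % 3 ≠ 2 ∧ z = a + b * Om}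

/-- the grid `Λ` multiplied by `u` -/
def rot (u : ℂ) (Λ : Set ℂ) : Set ℂ := {z | ∃ w ∈ Λ, z = u * w}

/-- self-avoiding walks with `n` steps in the closed upper half-plane, starting at `0`, with steps of
length `r` between points of `Λ`; a walk is continued by its last point -/
def PW (Λ : Set ℂ) (r : ℝ) (n : ℕ) : Set (ℕ → ℂ) :=
  {γ | γ 0 = 0 ∧ (∀ i, γ i ∈ Λ ∧ 0 ≤ (γ i).im) ∧ (∀ i < n, ‖γ (i + 1) - γ i‖ = r) ∧
    (∀ i ≤ n, ∀ j ≤ n, γ i = γ j → i = j) ∧ ∀ i, n ≤ i → γ i = γ n}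

/-- the line `Im z = y` is a cut line of `γ`: up to some time `γ` is below or on the line, and
afterwards it is strictly above -/
def CutLine (y : ℝ) (γ : ℕ → ℂ) : Prop :=
  ∃ k : ℕ, (∀ i ≤ k, (γ i).im ≤ y) ∧ ∀ i, k < i → y < (γ i).im

/-- the expected number of the rows `n r ≤ Im z ≤ (n + 1) r`, `n < N`, which contain a cut line -/
noncomputable def rows (μ : Measure (ℕ → ℂ)) (r : ℝ) (N : ℕ) : ℝ :=
  ∑ n ∈ Finset.range N, μ.real {γ | ∃ y ∈ Set.Icc ((n : ℝ) * r) (((n : ℝ) + 1) * r), CutLine y γ}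

/-- the probability that there is no cut line at the heights in `[r, N r]` -/
noncomputable def gap (μ : Measure (ℕ → ℂ)) (r : ℝ) (N : ℕ) : ℝ :=
  1 - μ.real {γ | ∃ y ∈ Set.Icc r (N * r), CutLine y γ}

/-- There is a constant `c > 0` such that for the hexagonal grid of edge length `‖u‖` with a vertex
at `0` and an edge at `0` perpendicular to the real line, the infinite half-plane self-avoiding walk
(the weak limit `μ` of the uniform measures on `n`-step half-plane walks) satisfies: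
(1) for all `‖u‖ ≤ t ≤ s`, the probability that there is a cut line at a height in `[t, s]` is at
most `1 - c (s / t)^(-177/200)`: at every scale there is a gap between the cut lines, whose ratio is
at least `s / t`, with a probability which is bounded below by a power of `t / s`;
(2) the expected number `e(N)` of the rows with a cut line among the first `N` rows satisfies
`e(K N) ≤ (1 / c) K^(177/200) e(N)` for all `K ≥ 1` and `N ≥ 2`;
(3) the probability `q(N)` that there is no cut line at the heights in `[‖u‖, N ‖u‖]` is comparable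
to `1 / e(N)`: `c ≤ q(N) e(N) ≤ 1 / c` for `N ≥ 2`;
(4) for every `lam ≥ 2` there is `ε > 0` such that almost surely, for all large `n`, at least `ε n` of
the `n` scales `[lam^k, lam^(k+1)]`, `k < n`, contain no height of a cut line;
(5) for every `b < 200 / 177`, almost surely there are arbitrarily large `t` such that no height in
`[t, t (log t)^b]` is the height of a cut line. -/
theorem result : ∃ c : ℝ, 0 < c ∧ ∀ u : ℂ, u ≠ 0 → (∃ z ∈ rot u HexG, ‖z‖ = ‖u‖ ∧ z.re = 0) →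
    ∃ μ : Measure (ℕ → ℂ), IsProbabilityMeasure μ ∧
      (∀ᵐ γ ∂μ, γ 0 = 0 ∧ (∀ i, γ i ∈ rot u HexG ∧ 0 ≤ (γ i).im) ∧
        (∀ i, ‖γ (i + 1) - γ i‖ = ‖u‖) ∧ Function.Injective γ) ∧
      (∀ F : BoundedContinuousFunction (ℕ → ℂ) ℝ,
        Tendsto (fun n => (∑ᶠ γ ∈ PW (rot u HexG) ‖u‖ n, F γ) /
          ((PW (rot u HexG) ‖u‖ n).ncard : ℝ)) atTop (𝓝 (∫ γ, F γ ∂μ))) ∧
      (∀ t s : ℝ, ‖u‖ ≤ t → t ≤ s → μ {γ | ∃ y ∈ Set.Icc t s, CutLine y γ} ≤
        ENNReal.ofReal (1 - c * (s / t) ^ (-(177 / 200) : ℝ))) ∧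
      (∀ K N : ℕ, 1 ≤ K → 2 ≤ N →
        rows μ ‖u‖ (K * N) ≤ 1 / c * (K : ℝ) ^ (177 / 200 : ℝ) * rows μ ‖u‖ N) ∧
      (∀ N : ℕ, 2 ≤ N → c ≤ gap μ ‖u‖ N * rows μ ‖u‖ N ∧ gap μ ‖u‖ N * rows μ ‖u‖ N ≤ 1 / c) ∧
      (∀ lam : ℝ, 2 ≤ lam → ∃ ε : ℝ, 0 < ε ∧ ∀ᵐ γ ∂μ, ∀ᶠ n : ℕ in atTop,
        ε * n ≤ (Set.ncard {k : ℕ | k < n ∧ ∀ y ∈ Set.Icc (lam ^ k) (lam ^ (k + 1)),
          ¬ CutLine y γ} : ℝ)) ∧
      ∀ b : ℝ, 0 < b → b < 200 / 177 → ∀ᵐ γ ∂μ, ∃ᶠ t : ℝ in atTop,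
        ∀ y ∈ Set.Icc t (t * (Real.log t) ^ b), ¬ CutLine y γ := by
  obtain ⟨c, hc0, hnum⟩ := Pool.Agent.Y981.GP.s_num
  obtain ⟨C, hC1, hren⟩ := Pool.Agent.Y981.GP.final_ren
  have hone := Pool.Agent.Y981.GP.s_one
  have hCpos : 0 < C := by linarith
  have hmin : 0 < min (c / 9) (1 / C) := lt_min (by positivity) (by positivity)
  have hCle : C ≤ 1 / min (c / 9) (1 / C) := by
    rw [le_div_iff₀ hmin]
    calc C * min (c / 9) (1 / C) ≤ C * (1 / C) := by
          gcongr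
          exact min_le_right _ _
      _ = 1 := by field_simp
  refine ⟨min (c / 9) (1 / C), hmin, ?_⟩
  intro u hu hv
  obtain ⟨c0, hc, E, hE⟩ := Pool.Agent.W818.TD.emb_vert u hu hv
  obtain ⟨μ, h1, h2, h3, h4⟩ :=
    Pool.Agent.H976R3.HPL.concl_of_emb E Pool.Agent.H976R3.HPL.facts_hexA
  have := h1
  have hr : 0 < ‖u‖ := norm_pos_iff.2 hu
  have hrows : ∀ N, 0 ≤ rows μ ‖u‖ N := fun N => Finset.sum_nonneg fun n _ => measureReal_nonneg
  refine ⟨μ, h1, h2, h4, ?_, ?_, ?_, ?_, ?_⟩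
  · intro t s ht hts
    refine (Pool.Agent.Y981.GP.cut_le hnum hc0 hc hr E hE μ h2 h3 ht hts).trans ?_
    apply ENNReal.ofReal_le_ofReal
    have ht0 : 0 < t := hr.trans_le ht
    have hs0 : 0 < s := ht0.trans_le hts
    have h5 : min (c / 9) (1 / C) * (s / t) ^ (-(177 / 200) : ℝ) ≤
        c / 9 * (s / t) ^ (-(177 / 200) : ℝ) := by
      gcongr
      exact min_le_left _ _
    linarith
  · intro K N hK hN
    refine ((hren hc hr E hE μ h2 h3 N hN).1 K hK).trans ?_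
    have h6 := hrows N
    change C * (K : ℝ) ^ (177 / 200 : ℝ) * rows μ ‖u‖ N ≤ _
    gcongr
  · intro N hN
    obtain ⟨-, h5, h6⟩ := hren hc hr E hE μ h2 h3 N hN
    exact ⟨(min_le_right _ _).trans h5, h6.trans hCle⟩
  · intro lam hlam
    exact Pool.Agent.Y981.GP.scales hnum hc0 hone hc hr E hE μ h2 h3 hlam
  · intro b hb0 hb
    exact Pool.Agent.Y981.GP.as_gap hnum hc0 hone hc hr E hE μ h2 h3 hb0 hb

end Pool.Agent.Results.MP_df1d0b_pr.Gaps
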