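import Pool.Agent.Y981.WD.F

set_option autoImplicit false

/-!
# The infinite half-plane self-avoiding walk on the hexagonal grid is not wider than high at its cut
lines, at all scales
-/

namespace Pool.Agent.Results.MP_df1d0b_pr.ShapeAtCutLines

open Filter Topology MeasureTheory

/-- `e^{iπ/3}` -/
noncomputable def Om : ℂ := ⟨1 / 2, Real.sqrt 3 / 2⟩

/-- the hexagonal grid with edge length one and a vertex at `0` (the triangular grid without the
centres of the hexagons) -/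
def HexG : Set ℂ := {z | ∃ a b : ℤ, (a - b) % 3 ≠ 2 ∧ z = a + b * Om}

/-- the grid `Λ` multiplied by `u` -/
def rot (u : ℂ) (Λ : Set ℂ) : Set ℂ := {z | ∃ w ∈ Λ, z = u * w}

/-- self-avoiding walks with `n` steps in the closed upper half-plane, starting at `0`, with steps of
length `r` between points of `Λ`; a walk is continued by its last point -/
def PW (Λ : Set ℂ) (r : ℝ) (n : ℕ) : Set (ℕ → ℂ) :=
  {γ | γ 0 = 0 ∧ (∀ i, γ i ∈ Λ ∧ 0 ≤ (γ i).im) ∧ (∀ i < n, ‖γ (i + 1) - γ i‖ = r) ∧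
    (∀ i ≤ n, ∀ j ≤ n, γ i = γ j → i = j) ∧ ∀ i, n ≤ i → γ i = γ n}

/-- the line `Im z = y` is a cut line of `γ`, which is crossed after the time `k`: `γ` is below or on
the line up to the time `k`, and strictly above the line afterwards -/
def Cut (k : ℕ) (y : ℝ) (γ : ℕ → ℂ) : Prop :=
  (∀ i ≤ k, (γ i).im ≤ y) ∧ ∀ i, k < i → y < (γ i).im

/-- There is a constant `C` such that for the hexagonal grid of edge length `‖u‖` with a vertex at
`0` and an edge at `0` perpendicular to the real line, the infinite half-plane self-avoiding walk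
(the weak limit `μ` of the uniform measures on `n`-step half-plane walks) satisfies:
(1) for all `t ≥ ‖u‖` and `s ≥ 1`, with probability at least `1 - C (3/5)^s`, the part of the walk
below every cut line of height at most `t` (equivalently: below the last one) has diameter at most
`54 s t`;
(2) almost surely, for all large `y`: if `Im z = y` is a cut line, then the part of the walk below
it has diameter at most `1296 y log log y`. -/
theorem result : ∃ C : ℝ, 0 < C ∧ ∀ u : ℂ, u ≠ 0 → (∃ z ∈ rot u HexG, ‖z‖ = ‖u‖ ∧ z.re = 0) →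
    ∃ μ : Measure (ℕ → ℂ), IsProbabilityMeasure μ ∧
      (∀ᵐ γ ∂μ, γ 0 = 0 ∧ (∀ i, γ i ∈ rot u HexG ∧ 0 ≤ (γ i).im) ∧
        (∀ i, ‖γ (i + 1) - γ i‖ = ‖u‖) ∧ Function.Injective γ) ∧
      (∀ F : BoundedContinuousFunction (ℕ → ℂ) ℝ,
        Tendsto (fun n => (∑ᶠ γ ∈ PW (rot u HexG) ‖u‖ n, F γ) /
          ((PW (rot u HexG) ‖u‖ n).ncard : ℝ)) atTop (𝓝 (∫ γ, F γ ∂μ))) ∧
      (∀ (t : ℝ) (s : ℕ), ‖u‖ ≤ t → 1 ≤ s →
        μ {γ | ∃ (k : ℕ) (y : ℝ), y ≤ t ∧ Cut k y γ ∧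
          ∃ i ≤ k, ∃ j ≤ k, 54 * s * t < ‖γ i - γ j‖} ≤ ENNReal.ofReal (C * (3 / 5) ^ s)) ∧
      ∀ᵐ γ ∂μ, ∀ᶠ y : ℝ in atTop, ∀ k : ℕ, Cut k y γ → ∀ i ≤ k, ∀ j ≤ k,
        ‖γ i - γ j‖ ≤ 1296 * y * Real.log (Real.log y) := by
  obtain ⟨C, hC, hsum⟩ := Pool.Agent.Y981.WD.conv_sum
  refine ⟨11 * C, by positivity, ?_⟩
  intro u hu hv
  obtain ⟨c0, hc, E, hE⟩ := Pool.Agent.W818.TD.emb_vert u hu hv
  obtain ⟨μ, h1, h2, h3, h4⟩ :=
    Pool.Agent.H976R3.HPL.concl_of_emb E Pool.Agent.H976R3.HPL.facts_hexA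
  have := h1
  have hr : 0 < ‖u‖ := norm_pos_iff.2 hu
  refine ⟨μ, h1, h2, h4, ?_, ?_⟩
  · intro t s ht hs
    refine (measure_mono ?_).trans
      (Pool.Agent.Y981.WD.prob hsum hc hr E hE μ h2 h3 ht s hs)
    rintro γ ⟨k, y, hy, ⟨y1, y2⟩, h⟩
    exact ⟨k, y, hy, y1, y2, h⟩
  · filter_upwards [Pool.Agent.Y981.WD.as_bound hsum hc hr E hE μ h2 h3] with γ hγ
    filter_upwards [hγ] with y hy k hk
    exact hy k hk.1 hk.2

end Pool.Agent.Results.MP_df1d0b_pr.ShapeAtCutLines
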